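import Pool.Agent.helper18.KU.Spec

/-!
# Project ku, module ACI: insertion of a vertex
-/

set_option autoImplicit false

namespace Pool.Agent.KU

open Finset

noncomputable section

theorem ACI : ACI_stmt := by
  intro V _ S A p v y hvS hAS hAc hpv hy hor
  obtain ⟨ρ, hρ⟩ := hAc
  rcases Option.eq_none_or_eq_some y with hyn | ⟨b, hyb⟩
  · refine ⟨fun u => if u = v then 0 else ρ u + 1, ?_⟩
    intro w hw u hu
    by_cases hwv : w = v
    · simp only [if_pos hwv] at hu
      rw [hyn] at hu
      exact absurd hu (by simp)
    · have hwS : w ∈ S := by
        rcases Finset.mem_insert.1 hw with h | h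
        · exact absurd h hwv
        · exact h
      simp only [if_neg hwv] at hu ⊢
      by_cases hwA : w ∈ A
      · simp only [if_pos hwA, Option.some.injEq] at hu
        rw [if_pos hu.symm]
        exact Nat.succ_pos _
      · simp only [if_neg hwA] at hu
        have huv : u ≠ v := by
          intro h
          rw [h] at hu
          exact hpv w hwS hu
        rw [if_neg huv]
        have := hρ w hwS u hu
        omega
  · have hbS := hy b hyb
    have hbv : b ≠ v := by
      intro h
      rw [h] at hbS
      exact hvS hbS
    refine ⟨fun u => if u = v then 2 * ρ b + 1 else 2 * ρ u, ?_⟩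
    intro w hw u hu
    by_cases hwv : w = v
    · simp only [if_pos hwv] at hu ⊢
      rw [hyb, Option.some.injEq] at hu
      rw [← hu, if_neg hbv]
      omega
    · have hwS : w ∈ S := by
        rcases Finset.mem_insert.1 hw with h | h
        · exact absurd h hwv
        · exact h
      simp only [if_neg hwv] at hu ⊢
      by_cases hwA : w ∈ A
      · simp only [if_pos hwA, Option.some.injEq] at hu
        rw [if_pos hu.symm]
        rcases hor with h | h
        · rw [hyb] at h
          exact absurd h (by simp)
        · have h2 := h w hwA
          rw [hyb] at h2
          have := hρ w hwS b h2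
          omega
      · simp only [if_neg hwA] at hu
        have huv : u ≠ v := by
          intro h
          rw [h] at hu
          exact hpv w hwS hu
        rw [if_neg huv]
        have := hρ w hwS u hu
        omega

end

end Pool.Agent.KU
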