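import Pool.Agent.helper18.KU.Spec

/-!
# Project ku, module CRI: critical triples
-/

set_option autoImplicit false

namespace Pool.Agent.KU

open Finset

noncomputable section

theorem CRI (hEIN : EIN_stmt) (hFNS : FNS_stmt) : CRI_stmt := by
  intro V _ S X w hC hI h4 Q hQ
  obtain ⟨hQS, hQ3, hQ5⟩ := hQ
  obtain ⟨-, -, -, -, hpair, htri, -, -, hsum⟩ := hEIN V w hC.sy
  obtain ⟨-, -, -, hdisj, -, -, -, -, -⟩ := hFNS V w X hC.sy
  have hQne : Q.Nonempty := by
    rw [← Finset.card_pos]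
    omega
  have hQS' : Q ≠ S := by
    intro h
    rw [h] at hQ3
    omega
  have hfQ : f X w Q = 4 - ∑ v ∈ Q, (X v : ℤ) := by
    unfold f
    rw [hQ3, hQ5]
    push_cast
    ring
  obtain ⟨h1, h2⟩ := hI Q hQS hQne hQS'
  have hX3 : ∑ v ∈ Q, X v ≤ 3 := by
    have h3 : ∑ v ∈ Q, (X v : ℤ) ≤ 3 := by linarith
    exact_mod_cast h3
  have hroot : ∀ v ∈ Q, 1 ≤ X v := fun v hv => hC.root v (hQS hv)
  have hX1 : ∀ u ∈ Q, X u = 1 := by
    intro u hu
    have h5 : ∑ v ∈ Q, X v = ∑ v ∈ Q.erase u, X v + X u := (Finset.sum_erase_add Q X hu).symm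
    have h6 : (Q.erase u).card = 2 := by
      rw [Finset.card_erase_of_mem hu, hQ3]
    have h7 : (Q.erase u).card • 1 ≤ ∑ v ∈ Q.erase u, X v :=
      Finset.card_nsmul_le_sum _ _ _ (fun v hv => hroot v (Finset.mem_of_mem_erase hv))
    rw [h6] at h7
    have h8 := hroot u hu
    simp only [smul_eq_mul] at h7
    omega
  have hXs : ∑ v ∈ Q, X v = 3 := by
    rw [Finset.sum_congr rfl hX1, Finset.sum_const, hQ3]
    rfl
  have hXsZ : ∑ v ∈ Q, (X v : ℤ) = 3 := by exact_mod_cast hXs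
  have hf1 : f X w Q = 1 := by
    rw [hfQ, hXsZ]
    norm_num
  have hRS : S \ Q ⊆ S := Finset.sdiff_subset
  have hcard : (S \ Q).card = S.card - 3 := by
    rw [Finset.card_sdiff_of_subset hQS, hQ3]
  have hRne : (S \ Q).Nonempty := by
    rw [← Finset.card_pos]
    omega
  have hRS' : S \ Q ≠ S := by
    intro h
    rw [h] at hcard
    omega
  obtain ⟨h9, -⟩ := hI (S \ Q) hRS hRne hRS'
  have hf2 : 2 ≤ f X w (S \ Q) := by
    have h10 : f X w (S \ Q) ≠ 1 := fun h => h2 ⟨hf1, h⟩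
    omega
  have hD : Disjoint Q (S \ Q) := Finset.disjoint_sdiff
  have hU : Q ∪ (S \ Q) = S := Finset.union_sdiff_of_subset hQS
  have h11 := hdisj Q (S \ Q) hD
  rw [hU, hC.tot, hf1] at h11
  have h12 : 3 ≤ ∑ u ∈ Q, dg w (S \ Q) u := by
    have h13 : (3 : ℤ) ≤ ∑ u ∈ Q, (dg w (S \ Q) u : ℤ) := by linarith
    exact_mod_cast h13
  have h14 : ∀ u, dg w S u = dg w Q u + dg w (S \ Q) u := by
    intro u
    unfold dg
    rw [← Finset.sum_union hD, hU]
  have h15 : ∑ u ∈ Q, dg w Q u = 10 := by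
    rw [hsum Q, hQ5]
  refine ⟨hX1, hf1, hf2, ?_, ?_⟩
  · have h16 : ∑ u ∈ Q, (X u + dg w S u) =
        ∑ u ∈ Q, X u + (∑ u ∈ Q, dg w Q u + ∑ u ∈ Q, dg w (S \ Q) u) := by
      rw [← Finset.sum_add_distrib, ← Finset.sum_add_distrib]
      refine Finset.sum_congr rfl fun u _ => ?_
      rw [h14 u]
    rw [h16, hXs, h15]
    omega
  · intro a ha b hb hab
    have hb' : b ∈ Q.erase a := Finset.mem_erase.2 ⟨fun h => hab h.symm, hb⟩
    have hc1 : ((Q.erase a).erase b).card = 1 := by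
      rw [Finset.card_erase_of_mem hb', Finset.card_erase_of_mem ha, hQ3]
    obtain ⟨c, hc⟩ := Finset.card_eq_one.1 hc1
    have hcm : c ∈ (Q.erase a).erase b := by
      rw [hc]
      exact Finset.mem_singleton_self c
    have hcb : c ≠ b := (Finset.mem_erase.1 hcm).1
    have hca : c ≠ a := (Finset.mem_erase.1 (Finset.mem_erase.1 hcm).2).1
    have hcQ : c ∈ Q := (Finset.mem_erase.1 (Finset.mem_erase.1 hcm).2).2
    have hQe : Q = {a, b, c} := by
      rw [← Finset.insert_erase ha, ← Finset.insert_erase hb', hc]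
    have h17 := htri a b c hab (fun h => hca h.symm) (fun h => hcb h.symm)
    rw [← hQe, hQ5] at h17
    have h2le : ∀ x ∈ Q, ∀ y ∈ Q, x ≠ y → w x y ≤ 2 := by
      intro x hx y hy hxy
      have h18 := hC.v {x, y} (by
        intro z hz
        rw [Finset.mem_insert, Finset.mem_singleton] at hz
        rcases hz with rfl | rfl
        · exact hQS hx
        · exact hQS hy) (by rw [Finset.card_pair hxy])
      rw [hpair x y hxy, Finset.card_pair hxy] at h18
      omega
    have h19 := h2le a ha c hcQ (fun h => hca h.symm)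
    have h20 := h2le b hb c hcQ (fun h => hcb h.symm)
    omega

end

end Pool.Agent.KU
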