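import Pool.Agent.helper18.KU.Spec

/-!
# Project ku, module S2: two vertices
-/

set_option autoImplicit false

namespace Pool.Agent.KU

open Finset

noncomputable section

theorem S2 : S2_stmt := by
  intro V _ S X w hC hI h2
  obtain ⟨a, b, hab, hS⟩ := Finset.card_eq_two.1 h2
  have hE1 : ∀ v, E w {v} = 0 := by
    intro v
    unfold E
    rw [Finset.sum_singleton, Finset.sum_singleton, hC.sy.loop v]
  have hf : ∀ v, f X w {v} = 3 - X v := by
    intro v
    unfold f
    rw [hE1, Finset.card_singleton, Finset.sum_singleton]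
    norm_num
  have haS : ({a} : Finset V) ⊆ S := by
    rw [hS]
    intro z hz
    rw [Finset.mem_singleton] at hz
    rw [hz]
    exact Finset.mem_insert_self _ _
  have hbS : ({b} : Finset V) ⊆ S := by
    rw [hS]
    intro z hz
    rw [Finset.mem_singleton] at hz
    rw [hz]
    exact Finset.mem_insert_of_mem (Finset.mem_singleton_self _)
  have haS' : ({a} : Finset V) ≠ S := by
    intro h
    rw [← h, Finset.card_singleton] at h2
    omega
  have hbS' : ({b} : Finset V) ≠ S := by
    intro h
    rw [← h, Finset.card_singleton] at h2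
    omega
  have hsd : S \ {a} = {b} := by
    rw [hS]
    ext z
    simp only [Finset.mem_sdiff, Finset.mem_insert, Finset.mem_singleton]
    constructor
    · rintro ⟨h | h, h'⟩
      · exact absurd h h'
      · exact h
    · intro h
      refine ⟨Or.inr h, ?_⟩
      rw [h]
      exact fun h' => hab h'.symm
  obtain ⟨h3, h4⟩ := hI {a} haS (Finset.singleton_nonempty a) haS'
  obtain ⟨h5, -⟩ := hI {b} hbS (Finset.singleton_nonempty b) hbS'
  rw [hf] at h3 h5
  have h6 := hC.v S (Finset.Subset.refl S) (by rw [h2])
  rw [h2] at h6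
  have h7 := hC.tot
  unfold f at h7
  rw [h2, show ∑ v ∈ S, (X v : ℤ) = X a + X b by rw [hS, Finset.sum_pair hab]] at h7
  push_cast at h7
  refine h4 ⟨?_, ?_⟩
  · rw [hf]
    omega
  · rw [hsd, hf]
    omega

end

end Pool.Agent.KU
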