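import Pool.Agent.helper18.KU.Spec

/-!
# Project ku, module T5: two critical triples with a common vertex
(adapted from `Pool/Agent/helper18/KU/T4.lean`)
-/

set_option autoImplicit false

namespace Pool.Agent.KU

open Finset

noncomputable section

/-- (code of the graph, code of the slots) -/
def T5_tab : List (ℕ × ℕ) :=
  [(80, 50376770630), (53, 50417050303), (71, 50417050309), (77, 11235279296), (50, 285469278469),
   (68, 12686203135), (79, 50376786182), (52, 285469278470), (70, 12686159071)]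

/-- the code of the slots -/
def T5_get (c : ℕ) : ℕ := ((T5_tab.find? fun r => r.1 == c).getD (0, 0)).2

/-- the slots -/
def T5_hh (H : ℕ) (i : Fin 5) (k : ZMod 3) : Option (Fin 5) :=
  if h : H / 6 ^ (3 * i.1 + ZMod.val k) % 6 < 5 then some ⟨H / 6 ^ (3 * i.1 + ZMod.val k) % 6, h⟩ else none

/-- the numbers of edges -/
def T5_p (x0 x1 x2 y0 y1 y2 : ℕ) (i j : Fin 5) : ℕ :=
  if i = 0 ∧ j = 1 ∨ i = 1 ∧ j = 0 then x0 else
  if i = 0 ∧ j = 2 ∨ i = 2 ∧ j = 0 then x1 else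
  if i = 1 ∧ j = 2 ∨ i = 2 ∧ j = 1 then x2 else
  if i = 0 ∧ j = 3 ∨ i = 3 ∧ j = 0 then y0 else
  if i = 0 ∧ j = 4 ∨ i = 4 ∧ j = 0 then y1 else
  if i = 3 ∧ j = 4 ∨ i = 4 ∧ j = 3 then y2 else 0

/-- the conditions of CHK -/
def T5_ok (H : ℕ) (p : Fin 5 → Fin 5 → ℕ) : Prop :=
  (∀ (i : Fin 5) (k : ZMod 3), T5_hh H i k ≠ some i) ∧
  (∀ (j : Fin (3 * 5)) (i : Fin 5),
    it (fun i => T5_hh H i ((((j : ℕ) : ℤ) - (i : ℕ)) / (5 : ℕ) : ℤ)) 5 (some i) = none) ∧
  (∀ i : Fin 5, (univ.filter fun k => T5_hh H i k = none).card = 1) ∧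
  (∀ i i' : Fin 5, i ≠ i' → (univ.filter fun k => T5_hh H i k = some i').card +
    (univ.filter fun k => T5_hh H i' k = some i).card = p i i')

instance (H : ℕ) (p : Fin 5 → Fin 5 → ℕ) : Decidable (T5_ok H p) := by
  unfold T5_ok
  infer_instance

theorem T5_all : ∀ x0 x1 x2 y0 y1 y2 : Fin 3, x0.1 + x1.1 + x2.1 = 5 → y0.1 + y1.1 + y2.1 = 5 →
    T5_ok (T5_get (x0.1 + 3 * x1.1 + 9 * y0.1 + 27 * y1.1))
      (T5_p x0.1 x1.1 x2.1 y0.1 y1.1 y2.1) := by
  decide +kernel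

theorem T5_core (hCHK : CHK_stmt) (hEXS : EXS_stmt) (X : Fin 5 → ℕ) (w : Fin 5 → Fin 5 → ℕ)
    (hX : ∀ i, X i = 1) (hs : ∀ i j, w i j = w j i)
    (l0 : w 0 1 ≤ 2) (l1 : w 0 2 ≤ 2) (l2 : w 1 2 ≤ 2) (l3 : w 0 3 ≤ 2) (l4 : w 0 4 ≤ 2) (l5 : w 3 4 ≤ 2)
    (t1 : w 0 1 + w 0 2 + w 1 2 = 5) (t2 : w 0 3 + w 0 4 + w 3 4 = 5)
    (z1 : w 1 3 = 0) (z2 : w 1 4 = 0) (z3 : w 2 3 = 0) (z4 : w 2 4 = 0) : St univ X w := by
  obtain ⟨a2, a3, a4, a5⟩ := T5_all ⟨w 0 1, Nat.lt_succ_of_le l0⟩ ⟨w 0 2, Nat.lt_succ_of_le l1⟩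
    ⟨w 1 2, Nat.lt_succ_of_le l2⟩ ⟨w 0 3, Nat.lt_succ_of_le l3⟩ ⟨w 0 4, Nat.lt_succ_of_le l4⟩
    ⟨w 3 4, Nat.lt_succ_of_le l5⟩ t1 t2
  simp only at a2 a3 a4 a5
  have h1 := hCHK 5 (by norm_num) _ (fun i => (i : ℕ)) (fun i => i.2) (fun i j hij => Fin.ext hij) a2 a3
  refine (hEXS (Fin 5) univ _ X _ w ?_ ?_).1 h1
  · intro i _
    rw [a4, hX]
  · intro i _ j _ hij
    rw [a5 i j hij]
    fin_cases i <;> fin_cases j <;>
      first
      | exact absurd rfl hij
      | rfl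
      | exact hs _ _
      | exact z1.symm
      | exact z2.symm
      | exact z3.symm
      | exact z4.symm
      | exact (z1.symm.trans (hs _ _))
      | exact (z2.symm.trans (hs _ _))
      | exact (z3.symm.trans (hs _ _))
      | exact (z4.symm.trans (hs _ _))

theorem T5 (hCHK : CHK_stmt) (hTRN : TRN_stmt) (hEXS : EXS_stmt) : T5_stmt := by
  intro V _ X w s a b c d hw hsa hsb hsc hsd hab hac had hbc hbd hcd l0 l1 l2 t1 l3 l4 l5 t2 z1 z2 z3 z4 hX
  have he : Function.Injective (![s, a, b, c, d] : Fin 5 → V) := by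
    intro i j hij
    fin_cases i <;> fin_cases j <;>
      first
      | rfl
      | exact absurd hij hsa
      | exact absurd hij hsb
      | exact absurd hij hsc
      | exact absurd hij hsd
      | exact absurd hij hab
      | exact absurd hij hac
      | exact absurd hij had
      | exact absurd hij hbc
      | exact absurd hij hbd
      | exact absurd hij hcd
      | exact absurd hij.symm hsa
      | exact absurd hij.symm hsb
      | exact absurd hij.symm hsc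
      | exact absurd hij.symm hsd
      | exact absurd hij.symm hab
      | exact absurd hij.symm hac
      | exact absurd hij.symm had
      | exact absurd hij.symm hbc
      | exact absurd hij.symm hbd
      | exact absurd hij.symm hcd
  have hes : univ.image (![s, a, b, c, d] : Fin 5 → V) = {s, a, b, c, d} := by
    ext v
    simp only [mem_image, mem_univ, true_and, mem_insert, mem_singleton]
    constructor
    · rintro ⟨i, rfl⟩
      fin_cases i
      · exact Or.inl rfl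
      · exact Or.inr (Or.inl rfl)
      · exact Or.inr (Or.inr (Or.inl rfl))
      · exact Or.inr (Or.inr (Or.inr (Or.inl rfl)))
      · exact Or.inr (Or.inr (Or.inr (Or.inr rfl)))
    · rintro (rfl | rfl | rfl | rfl | rfl)
      · exact ⟨0, rfl⟩
      · exact ⟨1, rfl⟩
      · exact ⟨2, rfl⟩
      · exact ⟨3, rfl⟩
      · exact ⟨4, rfl⟩
  rw [← hes]
  refine hTRN 5 V _ X w he ?_
  refine T5_core hCHK hEXS _ _ ?_ (fun i j => hw.symm _ _) l0 l1 l2 l3 l4 l5 t1 t2 z1 z2 z3 z4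
  intro i
  refine hX _ ?_
  rw [← hes]
  exact mem_image_of_mem _ (mem_univ i)

end

end Pool.Agent.KU
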